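import Pool.Agent.H735WS.BasicI

/-! Almost every leading coefficient. -/

set_option autoImplicit false

open Finset MeasureTheory

namespace Pool.Agent.H735WS.I

theorem S_split (k a h1 h2 : ℕ) (t ξ : ℝ) :
    S k a (h1 + h2) t ξ = S k a h1 t ξ + S k (a + h1) h2 t ξ := by
  rw [S, S, S, ← add_assoc]
  exact (Finset.sum_Ioc_consecutive _ (Nat.le_add_right a h1) (Nat.le_add_right (a + h1) h2)).symm

theorem dyad (k X : ℕ) (t ξ lam : ℝ) (hlam : 0 ≤ lam) (J : ℕ)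
    (hyp : ∀ h ≤ J, ∀ i : ℕ, (i + 1) * 2 ^ h ≤ X → ‖S k (i * 2 ^ h) (2 ^ h) t ξ‖ ≤ lam) :
    ∀ i : ℕ, (i + 1) * 2 ^ J ≤ X → ∀ M ≤ 2 ^ J, ‖S k (i * 2 ^ J) M t ξ‖ ≤ (J + 1) * lam := by
  induction J with
  | zero =>
    intro i hi M hM
    rw [pow_zero] at hM
    rcases Nat.le_one_iff_eq_zero_or_eq_one.mp hM with h | h
    · subst h
      have : S k (i * 2 ^ 0) 0 t ξ = 0 := by simp [S]
      rw [this, norm_zero]; push_cast; nlinarith
    · subst h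
      have := hyp 0 le_rfl i hi
      rw [pow_zero] at this ⊢
      push_cast; linarith
  | succ J ih =>
    intro i hi M hM
    have ih' := ih (fun h hh => hyp h (by omega))
    have e0 : i * 2 ^ (J + 1) = (2 * i) * 2 ^ J := by rw [pow_succ]; ring
    have e1 : (i + 1) * 2 ^ (J + 1) = (2 * i + 1 + 1) * 2 ^ J := by rw [pow_succ]; ring
    rw [e1] at hi
    have hi1 : (2 * i + 1) * 2 ^ J ≤ X := le_trans (Nat.mul_le_mul_right _ (by omega)) hi
    rcases Nat.lt_or_ge (2 ^ J) M with h | h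
    · obtain ⟨M', rfl⟩ : ∃ M', M = 2 ^ J + M' := ⟨M - 2 ^ J, by omega⟩
      have hM' : M' ≤ 2 ^ J := by rw [pow_succ] at hM; omega
      rw [e0, S_split]
      have e2 : (2 * i) * 2 ^ J + 2 ^ J = (2 * i + 1) * 2 ^ J := by ring
      rw [e2]
      have h1 := hyp J (by omega) (2 * i) hi1
      have h2 := ih' (2 * i + 1) hi M' hM'
      refine (norm_add_le _ _).trans ?_
      push_cast
      linarith
    · rw [e0]
      have h2 := ih' (2 * i) hi1 M h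
      push_cast
      linarith

/-- the exceptional set at scale `2^J` -/
def E (k J : ℕ) (lam : ℝ) : Set ℝ :=
  ⋃ h ∈ range (J + 1), ⋃ i ∈ range (2 ^ (J - h)),
    {t : ℝ | t ∈ Set.Icc (0 : ℝ) 1 ∧ ∃ ξ : ℝ, lam < ‖S k (i * 2 ^ h) (2 ^ h) t ξ‖}

theorem vol_E (k J m : ℕ) (lam : ℝ) (hlam : 0 < lam) (B : ℝ) (hB : 0 ≤ B)
    (hJ : ∀ h ≤ J, ∀ i : ℕ, i * 2 ^ h + 2 ^ h ≤ 2 ^ J →
      (I.J k m (i * 2 ^ h) (2 ^ h) : ℝ) ≤ ((2 ^ h : ℕ) : ℝ) ^ m * B) :
    volume (E k J lam) ≤ ENNReal.ofReal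
      ((J + 1) * ((m + 1) * ((2 : ℝ) ^ J) ^ (m + 1) * B / lam ^ (2 * m))) := by
  have h1 : ∀ h ∈ range (J + 1), volume (⋃ i ∈ range (2 ^ (J - h)),
      {t : ℝ | t ∈ Set.Icc (0 : ℝ) 1 ∧ ∃ ξ : ℝ, lam < ‖S k (i * 2 ^ h) (2 ^ h) t ξ‖})
      ≤ ENNReal.ofReal ((m + 1) * ((2 : ℝ) ^ J) ^ (m + 1) * B / lam ^ (2 * m)) := by
    intro h hh
    rw [mem_range] at hh
    have hhJ : h ≤ J := by omega
    have h2h : (2 : ℝ) ^ h ≤ 2 ^ J := pow_le_pow_right₀ (by norm_num) hhJ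
    have h2 : ∀ i ∈ range (2 ^ (J - h)),
        volume {t : ℝ | t ∈ Set.Icc (0 : ℝ) 1 ∧ ∃ ξ : ℝ, lam < ‖S k (i * 2 ^ h) (2 ^ h) t ξ‖}
        ≤ ENNReal.ofReal ((m + 1) * 2 ^ h * (((2 : ℝ) ^ J) ^ m * B) / lam ^ (2 * m)) := by
      intro i hi
      rw [mem_range] at hi
      have hiJ : i * 2 ^ h + 2 ^ h ≤ 2 ^ J := by
        have : (i + 1) * 2 ^ h ≤ 2 ^ (J - h) * 2 ^ h := Nat.mul_le_mul_right _ (by omega)
        rw [← pow_add, Nat.sub_add_cancel hhJ] at this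
        linarith
      refine (meas_le k m (i * 2 ^ h) (2 ^ h) lam hlam).trans (ENNReal.ofReal_le_ofReal ?_)
      gcongr
      · push_cast
        have : (1 : ℝ) ≤ 2 ^ h := one_le_pow₀ (by norm_num)
        nlinarith
      · refine (hJ h hhJ i hiJ).trans ?_
        push_cast
        gcongr
    refine (measure_biUnion_finset_le _ _).trans ((Finset.sum_le_sum h2).trans ?_)
    rw [Finset.sum_const, card_range, nsmul_eq_mul]
    have h3 : ((2 ^ (J - h) : ℕ) : ENNReal) = ENNReal.ofReal ((2 : ℝ) ^ (J - h)) := by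
      rw [← ENNReal.ofReal_natCast]; push_cast; rfl
    rw [h3, ← ENNReal.ofReal_mul (by positivity)]
    refine ENNReal.ofReal_le_ofReal (le_of_eq ?_)
    have h4 : (2 : ℝ) ^ (J - h) * 2 ^ h = 2 ^ J := by
      rw [← pow_add, Nat.sub_add_cancel hhJ]
    rw [pow_succ ((2 : ℝ) ^ J) m]
    calc (2 : ℝ) ^ (J - h) * ((m + 1) * 2 ^ h * (((2 : ℝ) ^ J) ^ m * B) / lam ^ (2 * m))
        = (m + 1) * (((2 : ℝ) ^ J) ^ m * ((2 : ℝ) ^ (J - h) * 2 ^ h)) * B / lam ^ (2 * m) := by ring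
      _ = _ := by rw [h4]
  rw [E]
  refine (measure_biUnion_finset_le _ _).trans ((Finset.sum_le_sum h1).trans ?_)
  rw [Finset.sum_const, card_range, nsmul_eq_mul]
  have h3 : ((J + 1 : ℕ) : ENNReal) = ENNReal.ofReal ((J : ℝ) + 1) := by
    rw [← ENNReal.ofReal_natCast]; push_cast; rfl
  rw [h3, ← ENNReal.ofReal_mul (by positivity)]

/-- summable measure bound -/
theorem vol_E_le (k : ℕ) (hk : 3 ≤ k) (ε : ℝ) (hε : 0 < ε) :
    ∃ K : ℝ, 0 < K ∧ ∀ J : ℕ,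
      volume (E k J (((2 : ℝ) ^ J) ^ (1 - 1 / (k : ℝ) + ε)))
        ≤ ENNReal.ofReal ((J + 1) * (K * ((2 : ℝ) ^ J) ^ (-ε))) := by
  rcases Nat.lt_or_ge 3 k with hk4 | hk3
  · refine ⟨6, by norm_num, ?_⟩
    intro J
    set N : ℝ := (2 : ℝ) ^ J with hN
    have hN1 : (1 : ℝ) ≤ N := one_le_pow₀ (by norm_num)
    have hN0 : (0 : ℝ) < N := by linarith
    have hkr : (4 : ℝ) ≤ k := by exact_mod_cast hk4
    have h1k : 1 / (k : ℝ) ≤ 1 / 4 := one_div_le_one_div_of_le (by norm_num) hkr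
    refine (vol_E k J 2 _ (Real.rpow_pos_of_pos hN0 _) 2 (by norm_num) ?_).trans
      (ENNReal.ofReal_le_ofReal ?_)
    · intro h _ i _
      have := J_two k (i * 2 ^ h) (2 ^ h) (by omega)
      linarith
    · refine mul_le_mul_of_nonneg_left ?_ (by positivity)
      have h2 : (N ^ (1 - 1 / (k : ℝ) + ε)) ^ (2 * 2) = N ^ (4 - 4 / (k : ℝ) + 4 * ε) := by
        rw [← Real.rpow_natCast, ← Real.rpow_mul hN0.le]
        congr 1; push_cast; ring
      rw [h2, div_le_iff₀ (Real.rpow_pos_of_pos hN0 _)]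
      push_cast
      calc (2 + 1) * N ^ (2 + 1) * 2 = 6 * N ^ (3 : ℝ) := by
            have : N ^ (3 : ℝ) = N ^ (3 : ℕ) := by norm_cast
            rw [this]; ring
        _ ≤ 6 * N ^ (-ε + (4 - 4 / (k : ℝ) + 4 * ε)) := by
            refine mul_le_mul_of_nonneg_left ?_ (by norm_num)
            apply Real.rpow_le_rpow_of_exponent_le hN1
            have : 4 / (k : ℝ) = 4 * (1 / (k : ℝ)) := by ring
            rw [this]; linarith
        _ = 6 * N ^ (-ε) * N ^ (4 - 4 / (k : ℝ) + 4 * ε) := by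
            rw [Real.rpow_add hN0]; ring
  · have hk' : k = 3 := by omega
    subst hk'
    obtain ⟨C0, hC0, hdiv⟩ := Pool.Agent.H510R2.divisor_bound (ε / 9) (by positivity)
    refine ⟨4 * (C0 * (8 : ℝ) ^ (ε / 9)) ^ 3, by positivity, ?_⟩
    intro J
    set N : ℝ := (2 : ℝ) ^ J with hN
    have hN1 : (1 : ℝ) ≤ N := one_le_pow₀ (by norm_num)
    have hN0 : (0 : ℝ) < N := by linarith
    refine (vol_E 3 J 3 _ (Real.rpow_pos_of_pos hN0 _) ((C0 * (8 : ℝ) ^ (ε / 9)) ^ 3 * N ^ ε)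
      (by positivity) ?_).trans (ENNReal.ofReal_le_ofReal ?_)
    · intro h _ i hi
      refine (J_three (ε / 9) C0 (by positivity) hC0 hdiv (i * 2 ^ h) (2 ^ h)).trans ?_
      refine mul_le_mul_of_nonneg_left ?_ (by positivity)
      have h3 : (C0 * (8 * N ^ 3) ^ (ε / 9)) ^ 3
          = (C0 * (8 : ℝ) ^ (ε / 9)) ^ 3 * N ^ ε := by
        rw [Real.mul_rpow (by norm_num) (by positivity), ← mul_assoc, mul_pow]
        congr 1
        rw [← Real.rpow_natCast N 3, ← Real.rpow_mul hN0.le, ← Real.rpow_natCast,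
          ← Real.rpow_mul hN0.le]
        congr 1; push_cast; ring
      rw [← h3]
      have h4 : ((8 * (i * 2 ^ h + 2 ^ h) ^ 3 : ℕ) : ℝ) ≤ 8 * N ^ 3 := by
        have h5 : 8 * (i * 2 ^ h + 2 ^ h) ^ 3 ≤ 8 * (2 ^ J) ^ 3 :=
          Nat.mul_le_mul_left _ (Nat.pow_le_pow_left hi 3)
        rw [hN]
        exact_mod_cast h5
      gcongr
    · refine mul_le_mul_of_nonneg_left ?_ (by positivity)
      have h2 : (N ^ (1 - 1 / ((3 : ℕ) : ℝ) + ε)) ^ (2 * 3) = N ^ (4 + 6 * ε) := by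
        rw [← Real.rpow_natCast, ← Real.rpow_mul hN0.le]
        congr 1; push_cast; ring
      rw [h2, div_le_iff₀ (Real.rpow_pos_of_pos hN0 _)]
      push_cast
      calc (3 + 1) * N ^ (3 + 1) * ((C0 * (8 : ℝ) ^ (ε / 9)) ^ 3 * N ^ ε)
          = 4 * (C0 * (8 : ℝ) ^ (ε / 9)) ^ 3 * (N ^ (4 : ℝ) * N ^ ε) := by
            have : N ^ (4 : ℝ) = N ^ (4 : ℕ) := by norm_cast
            rw [this]; ring
        _ = 4 * (C0 * (8 : ℝ) ^ (ε / 9)) ^ 3 * N ^ (4 + ε) := by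
            rw [Real.rpow_add hN0]
        _ ≤ 4 * (C0 * (8 : ℝ) ^ (ε / 9)) ^ 3 * N ^ (-ε + (4 + 6 * ε)) := by
            refine mul_le_mul_of_nonneg_left ?_ (by positivity)
            apply Real.rpow_le_rpow_of_exponent_le hN1
            linarith
        _ = 4 * (C0 * (8 : ℝ) ^ (ε / 9)) ^ 3 * N ^ (-ε) * N ^ (4 + 6 * ε) := by
            rw [Real.rpow_add hN0]; ring

end Pool.Agent.H735WS.I
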