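import Pool.Agent.H735WS.AE

/-! Almost every leading coefficient: conclusion. -/

set_option autoImplicit false

open Finset MeasureTheory Filter

namespace Pool.Agent.H735WS.I

theorem tsum_fin (k : ℕ) (hk : 3 ≤ k) (ε : ℝ) (hε : 0 < ε) :
    (∑' J : ℕ, volume (E k J (((2 : ℝ) ^ J) ^ (1 - 1 / (k : ℝ) + ε)))) ≠ ⊤ := by
  obtain ⟨K, hK, hv⟩ := vol_E_le k hk ε hε
  have hρ0 : (0 : ℝ) < (2 : ℝ) ^ (-ε) := Real.rpow_pos_of_pos (by norm_num) _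
  have hρ1 : (2 : ℝ) ^ (-ε) < 1 := Real.rpow_lt_one_of_one_lt_of_neg (by norm_num) (by linarith)
  have hs : Summable (fun J : ℕ => ((J : ℝ) + 1) * (K * ((2 : ℝ) ^ J) ^ (-ε))) := by
    have h1 : Summable (fun J : ℕ => (J : ℝ) ^ 1 * ((2 : ℝ) ^ (-ε)) ^ J) :=
      summable_pow_mul_geometric_of_norm_lt_one 1 (by
        rw [Real.norm_of_nonneg hρ0.le]; exact hρ1)
    have h2 : Summable (fun J : ℕ => ((2 : ℝ) ^ (-ε)) ^ J) :=
      summable_geometric_of_lt_one hρ0.le hρ1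
    have h3 := (h1.add h2).mul_left K
    refine h3.congr (fun J => ?_)
    have h4 : ((2 : ℝ) ^ J) ^ (-ε) = ((2 : ℝ) ^ (-ε)) ^ J := by
      rw [← Real.rpow_natCast, ← Real.rpow_natCast, ← Real.rpow_mul (by norm_num),
        ← Real.rpow_mul (by norm_num)]
      congr 1; ring
    rw [h4]; ring
  refine ne_top_of_le_ne_top hs.tsum_ofReal_ne_top ?_
  exact ENNReal.tsum_le_tsum hv

theorem lin_le (δ : ℝ) (hδ : 0 < δ) : ∃ K1 : ℝ, 0 < K1 ∧ ∀ J : ℕ, ((J : ℝ) + 1) ≤ K1 * ((2 : ℝ) ^ J) ^ δ := by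
  set c : ℝ := min 1 (δ * Real.log 2) with hc
  have hlog : 0 < Real.log 2 := Real.log_pos (by norm_num)
  have hc0 : 0 < c := lt_min one_pos (by positivity)
  refine ⟨1 / c, by positivity, ?_⟩
  intro J
  have h1 : ((2 : ℝ) ^ J) ^ δ = Real.exp (J * (δ * Real.log 2)) := by
    rw [← Real.rpow_natCast, ← Real.rpow_mul (by norm_num), Real.rpow_def_of_pos (by norm_num)]
    congr 1; ring
  have h2 := Real.add_one_le_exp (J * (δ * Real.log 2))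
  rw [h1]
  have h3 : c ≤ 1 := min_le_left _ _
  have h4 : c ≤ δ * Real.log 2 := min_le_right _ _
  have hJ : (0 : ℝ) ≤ J := Nat.cast_nonneg _
  have h5 : c * ((J : ℝ) + 1) ≤ Real.exp (J * (δ * Real.log 2)) := by nlinarith
  rw [div_mul_eq_mul_div, one_mul, le_div_iff₀ hc0]
  linarith

theorem ae_main (k : ℕ) (hk : 3 ≤ k) :
    ∀ᵐ t : ℝ, t ∈ Set.Icc (0 : ℝ) 1 → ∀ ε : ℝ, 0 < ε → ∃ C : ℝ, 0 < C ∧
      ∀ N : ℕ, 1 ≤ N → ∀ ξ : ℝ,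
        ‖∑ n ∈ Icc 1 N, Complex.exp (2 * (Real.pi : ℂ) * Complex.I *
          (((t * (n : ℝ) ^ k + ξ * (n : ℝ)) : ℝ) : ℂ))‖
        ≤ C * (N : ℝ) ^ (1 - 1 / (k : ℝ) + ε) := by
  have h1 : ∀ n : ℕ, ∀ᵐ t : ℝ, ∀ᶠ J in atTop,
      t ∉ E k J (((2 : ℝ) ^ J) ^ (1 - 1 / (k : ℝ) + 1 / ((n : ℝ) + 1))) := by
    intro n
    exact ae_eventually_notMem (tsum_fin k hk (1 / ((n : ℝ) + 1)) (by positivity))
  filter_upwards [ae_all_iff.mpr h1] with t ht ht01 ε hε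
  obtain ⟨n, hn⟩ := exists_nat_one_div_lt (half_pos hε)
  obtain ⟨J0, hJ0⟩ := eventually_atTop.mp (ht n)
  obtain ⟨K1, hK1, hlin⟩ := lin_le (ε / 2) (half_pos hε)
  have hkr : (3 : ℝ) ≤ k := by exact_mod_cast hk
  have h1k : 1 / (k : ℝ) ≤ 1 / 3 := one_div_le_one_div_of_le (by norm_num) hkr
  have he0 : 0 < 1 - 1 / (k : ℝ) + ε := by linarith
  refine ⟨K1 * ((2 : ℝ) ^ (J0 + 1)) ^ (1 - 1 / (k : ℝ) + ε), by positivity, ?_⟩
  intro N hN ξ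
  have hN1 : (1 : ℝ) ≤ N := by exact_mod_cast hN
  have hN0 : (0 : ℝ) < N := by linarith
  set J : ℕ := J0 + 1 + Nat.log 2 N with hJdef
  have hNJ : N ≤ 2 ^ J := by
    have h2 : N < 2 ^ (Nat.log 2 N + 1) := Nat.lt_pow_succ_log_self (by norm_num) N
    have h3 : 2 ^ (Nat.log 2 N + 1) ≤ 2 ^ J := Nat.pow_le_pow_right (by norm_num) (by omega)
    omega
  have hJN : (2 : ℝ) ^ J ≤ (2 : ℝ) ^ (J0 + 1) * N := by
    rw [hJdef, pow_add]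
    have h2 : 2 ^ (Nat.log 2 N) ≤ N := Nat.pow_log_le_self 2 (by omega)
    have h3 : (2 : ℝ) ^ (Nat.log 2 N) ≤ N := by exact_mod_cast h2
    gcongr
  set lam : ℝ := ((2 : ℝ) ^ J) ^ (1 - 1 / (k : ℝ) + 1 / ((n : ℝ) + 1)) with hlam
  have hlam0 : 0 ≤ lam := by positivity
  have hnot := hJ0 J (by omega)
  have hyp : ∀ h ≤ J, ∀ i : ℕ, (i + 1) * 2 ^ h ≤ 2 ^ J →
      ‖S k (i * 2 ^ h) (2 ^ h) t ξ‖ ≤ lam := by
    intro h hh i hi
    by_contra hcon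
    push Not at hcon
    apply hnot
    rw [E]
    simp only [Set.mem_iUnion, mem_range, Set.mem_ofPred_eq]
    refine ⟨h, by omega, i, ?_, ht01, ξ, hcon⟩
    have h5 : 2 ^ J = 2 ^ (J - h) * 2 ^ h := by rw [← pow_add, Nat.sub_add_cancel hh]
    rw [h5] at hi
    have := Nat.le_of_mul_le_mul_right hi (by positivity : 0 < 2 ^ h)
    omega
  have hfin := dyad k (2 ^ J) t ξ lam hlam0 J hyp 0 (by simp) N hNJ
  have hS : S k (0 * 2 ^ J) N t ξ = ∑ n ∈ Icc 1 N, Complex.exp (2 * (Real.pi : ℂ) * Complex.I *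
          (((t * (n : ℝ) ^ k + ξ * (n : ℝ)) : ℝ) : ℂ)) := by
    rw [S, zero_mul, zero_add]
    rfl
  rw [← hS]
  have h2J1 : (1 : ℝ) ≤ (2 : ℝ) ^ J := one_le_pow₀ (by norm_num)
  have h2J0 : (0 : ℝ) < (2 : ℝ) ^ J := by positivity
  calc ‖S k (0 * 2 ^ J) N t ξ‖ ≤ (J + 1) * lam := hfin
    _ ≤ (K1 * ((2 : ℝ) ^ J) ^ (ε / 2)) * ((2 : ℝ) ^ J) ^ (1 - 1 / (k : ℝ) + ε / 2) := by
        refine mul_le_mul (hlin J) ?_ hlam0 (by positivity)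
        rw [hlam]
        apply Real.rpow_le_rpow_of_exponent_le h2J1
        linarith
    _ = K1 * ((2 : ℝ) ^ J) ^ (1 - 1 / (k : ℝ) + ε) := by
        rw [mul_assoc, ← Real.rpow_add h2J0]
        congr 2; ring
    _ ≤ K1 * ((2 : ℝ) ^ (J0 + 1) * N) ^ (1 - 1 / (k : ℝ) + ε) := by
        gcongr
    _ = K1 * ((2 : ℝ) ^ (J0 + 1)) ^ (1 - 1 / (k : ℝ) + ε) * (N : ℝ) ^ (1 - 1 / (k : ℝ) + ε) := by
        rw [Real.mul_rpow (by positivity) hN0.le]; ring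

end Pool.Agent.H735WS.I
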