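import Mathlib
import Pool.Agent.H510R2.Div

/-! Weyl sums: moments over the leading coefficient of the supremum over the linear one. -/

set_option autoImplicit false

open Finset MeasureTheory

namespace Pool.Agent.H735WS

/-- the Weyl sum -/
noncomputable def S (k N : ℕ) (t ξ : ℝ) : ℂ :=
  ∑ n ∈ Icc 1 N, Complex.exp (2 * Real.pi * Complex.I * ((t * (n : ℝ) ^ k + ξ * n : ℝ) : ℂ))

/-- tuples with given sum -/
def F (m N j : ℕ) : Finset (Fin m → ℕ) :=
  (Fintype.piFinset (fun _ : Fin m => Icc 1 N)).filter (fun x => ∑ i, x i = j)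

/-- coefficients -/
noncomputable def c (k m N j : ℕ) (t : ℝ) : ℂ :=
  ∑ x ∈ F m N j, Complex.exp (2 * Real.pi * Complex.I * ((t * ((∑ i, (x i) ^ k : ℕ) : ℝ) : ℝ) : ℂ))

noncomputable def G (k m N : ℕ) (t : ℝ) : ℝ := ∑ j ∈ Icc 0 (m * N), ‖c k m N j t‖ ^ 2

theorem S_pow (k m N : ℕ) (t ξ : ℝ) :
    (S k N t ξ) ^ m = ∑ j ∈ Icc 0 (m * N),
      Complex.exp (2 * Real.pi * Complex.I * ((ξ * (j : ℝ) : ℝ) : ℂ)) * c k m N j t := by
  rw [S, Finset.sum_pow']
  rw [← Finset.sum_fiberwise_of_maps_to (g := fun x : Fin m → ℕ => ∑ i, x i) (t := Icc 0 (m * N))]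
  · refine Finset.sum_congr rfl (fun j _ => ?_)
    rw [c, Finset.mul_sum]
    refine Finset.sum_congr rfl (fun x hx => ?_)
    rw [F, Finset.mem_filter] at hx
    rw [← Complex.exp_sum, ← Complex.exp_add, ← hx.2]
    congr 1
    rw [← Finset.mul_sum, ← mul_add]
    congr 1
    push_cast
    rw [Finset.sum_add_distrib, ← Finset.mul_sum, ← Finset.mul_sum]
    ring
  · intro x hx
    rw [Fintype.mem_piFinset] at hx
    rw [mem_Icc]
    refine ⟨Nat.zero_le _, ?_⟩
    calc ∑ i, x i ≤ ∑ _i : Fin m, N := Finset.sum_le_sum (fun i _ => (mem_Icc.mp (hx i)).2)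
      _ = m * N := by simp

theorem norm_e (y : ℝ) : ‖Complex.exp (2 * Real.pi * Complex.I * (y : ℂ))‖ = 1 := by
  rw [show 2 * Real.pi * Complex.I * (y : ℂ) = ((2 * Real.pi * y : ℝ) : ℂ) * Complex.I by
    push_cast; ring]
  exact Complex.norm_exp_ofReal_mul_I _

theorem S_le (k m N : ℕ) (t ξ : ℝ) :
    ‖S k N t ξ‖ ^ (2 * m) ≤ (m * N + 1 : ℝ) * G k m N t := by
  have h1 : ‖S k N t ξ‖ ^ (2 * m) = ‖(S k N t ξ) ^ m‖ ^ 2 := by
    rw [norm_pow, ← pow_mul, mul_comm]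
  rw [h1, S_pow]
  have h2 : ‖∑ j ∈ Icc 0 (m * N), Complex.exp (2 * Real.pi * Complex.I * ((ξ * (j : ℝ) : ℝ) : ℂ))
      * c k m N j t‖ ≤ ∑ j ∈ Icc 0 (m * N), ‖c k m N j t‖ := by
    refine (norm_sum_le _ _).trans (le_of_eq ?_)
    refine Finset.sum_congr rfl (fun j _ => ?_)
    rw [norm_mul, norm_e, one_mul]
  refine (pow_le_pow_left₀ (norm_nonneg _) h2 2).trans ?_
  refine (sq_sum_le_card_mul_sum_sq).trans (le_of_eq ?_)
  rw [Nat.card_Icc, G]
  push_cast
  simp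

/-- orthogonality -/
theorem int_e (d : ℤ) :
    ∫ t in (0 : ℝ)..1, Complex.exp (2 * Real.pi * Complex.I * d * t) = if d = 0 then 1 else 0 := by
  by_cases hd : d = 0
  · subst hd; simp
  · rw [if_neg hd]
    have hc : (2 * Real.pi * Complex.I * d : ℂ) ≠ 0 := by
      refine mul_ne_zero Complex.two_pi_I_ne_zero ?_
      exact_mod_cast hd
    rw [integral_exp_mul_complex hc]
    have h1 : Complex.exp (2 * Real.pi * Complex.I * d * ((1 : ℝ) : ℂ)) = 1 := by
      rw [Complex.exp_eq_one_iff]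
      exact ⟨d, by push_cast; ring⟩
    rw [h1]
    simp

/-- number of solutions -/
def J (k m N : ℕ) : ℕ := ∑ j ∈ Icc 0 (m * N),
  (((F m N j) ×ˢ (F m N j)).filter (fun q => ∑ i, (q.1 i) ^ k = ∑ i, (q.2 i) ^ k)).card

theorem norm_c_sq (k m N j : ℕ) (t : ℝ) : ((‖c k m N j t‖ ^ 2 : ℝ) : ℂ)
    = ∑ q ∈ (F m N j) ×ˢ (F m N j), Complex.exp (2 * Real.pi * Complex.I *
      (((∑ i, (q.1 i) ^ k : ℕ) : ℤ) - ((∑ i, (q.2 i) ^ k : ℕ) : ℤ) : ℤ) * t) := by
  have h2 : ((‖c k m N j t‖ ^ 2 : ℝ) : ℂ) = c k m N j t * (starRingEnd ℂ) (c k m N j t) := by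
    rw [Complex.mul_conj, Complex.normSq_eq_norm_sq]
  rw [h2, c, map_sum, Finset.sum_mul_sum, ← Finset.sum_product']
  refine Finset.sum_congr rfl (fun q _ => ?_)
  rw [← Complex.exp_conj, ← Complex.exp_add]
  congr 1
  simp only [map_mul, Complex.conj_ofReal, Complex.conj_I, map_ofNat]
  push_cast
  ring

theorem cont_G (k m N : ℕ) : Continuous (G k m N) := by
  unfold G c
  fun_prop

theorem int_G (k m N : ℕ) : ∫ t in (0 : ℝ)..1, G k m N t = (J k m N : ℝ) := by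
  have h1 : ((∫ t in (0 : ℝ)..1, G k m N t : ℝ) : ℂ) = ((J k m N : ℝ) : ℂ) := by
    rw [← intervalIntegral.integral_ofReal]
    have h2 : ∀ t : ℝ, ((G k m N t : ℝ) : ℂ) = ∑ j ∈ Icc 0 (m * N),
        ∑ q ∈ (F m N j) ×ˢ (F m N j), Complex.exp (2 * Real.pi * Complex.I *
      (((∑ i, (q.1 i) ^ k : ℕ) : ℤ) - ((∑ i, (q.2 i) ^ k : ℕ) : ℤ) : ℤ) * t) := by
      intro t
      rw [G, Complex.ofReal_sum]
      exact Finset.sum_congr rfl (fun j _ => norm_c_sq k m N j t)
    simp_rw [h2]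
    rw [intervalIntegral.integral_finsetSum]
    · have h3 : ∀ j ∈ Icc 0 (m * N), ∫ t in (0 : ℝ)..1, ∑ q ∈ (F m N j) ×ˢ (F m N j),
          Complex.exp (2 * Real.pi * Complex.I *
          (((∑ i, (q.1 i) ^ k : ℕ) : ℤ) - ((∑ i, (q.2 i) ^ k : ℕ) : ℤ) : ℤ) * t)
          = ((((F m N j) ×ˢ (F m N j)).filter
            (fun q => ∑ i, (q.1 i) ^ k = ∑ i, (q.2 i) ^ k)).card : ℂ) := by
        intro j _
        rw [intervalIntegral.integral_finsetSum]
        · rw [Finset.card_filter]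
          push_cast
          refine Finset.sum_congr rfl (fun q _ => ?_)
          have h4 := int_e (((∑ i, (q.1 i) ^ k : ℕ) : ℤ) - ((∑ i, (q.2 i) ^ k : ℕ) : ℤ))
          push_cast at h4 ⊢
          rw [h4]
          by_cases h5 : ∑ i, (q.1 i) ^ k = ∑ i, (q.2 i) ^ k
          · rw [if_pos h5, if_pos]
            have : ((∑ i, (q.1 i) ^ k : ℕ) : ℤ) = ((∑ i, (q.2 i) ^ k : ℕ) : ℤ) := by rw [h5]
            push_cast at this
            rw [this, sub_self]
          · rw [if_neg h5, if_neg]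
            intro h6
            apply h5
            have : ((∑ i, (q.1 i) ^ k : ℕ) : ℤ) = ((∑ i, (q.2 i) ^ k : ℕ) : ℤ) := by
              push_cast; linarith
            exact_mod_cast this
        · intro q _
          apply Continuous.intervalIntegrable
          fun_prop
      rw [Finset.sum_congr rfl h3, J]
      push_cast
      rfl
    · intro j _
      apply Continuous.intervalIntegrable
      fun_prop
  exact_mod_cast h1

end Pool.Agent.H735WS
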