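import Pool.Agent.H735WS.Basic

/-! Counting solutions. -/

set_option autoImplicit false

open Finset

namespace Pool.Agent.H735WS

/-- general bound: if every `x` has at most `B` partners -/
theorem J_le (k m N : ℕ) (B : ℝ) (hB0 : 0 ≤ B)
    (hB : ∀ x ∈ Fintype.piFinset (fun _ : Fin m => Icc 1 N),
      (((Fintype.piFinset (fun _ : Fin m => Icc 1 N)).filter
        (fun y => ∑ i, y i = ∑ i, x i ∧ ∑ i, (y i) ^ k = ∑ i, (x i) ^ k)).card : ℝ) ≤ B) :
    (J k m N : ℝ) ≤ (N : ℝ) ^ m * B := by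
  classical
  have h1 : ∀ j ∈ Icc 0 (m * N), ((((F m N j) ×ˢ (F m N j)).filter
      (fun q => ∑ i, (q.1 i) ^ k = ∑ i, (q.2 i) ^ k)).card : ℝ) ≤ (F m N j).card * B := by
    intro j _
    rw [Finset.card_filter, Finset.sum_product]
    push_cast
    have h2 : ∀ x ∈ F m N j, ∑ y ∈ F m N j,
        (if ∑ i, (x i) ^ k = ∑ i, (y i) ^ k then (1 : ℝ) else 0) ≤ B := by
      intro x hx
      rw [F, Finset.mem_filter] at hx
      refine le_trans ?_ (hB x hx.1)
      rw [← Finset.sum_filter, Finset.sum_const, nsmul_eq_mul, mul_one]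
      have h3 : ((F m N j).filter (fun y => ∑ i, (x i) ^ k = ∑ i, (y i) ^ k)).card
          ≤ ((Fintype.piFinset (fun _ : Fin m => Icc 1 N)).filter
        (fun y => ∑ i, y i = ∑ i, x i ∧ ∑ i, (y i) ^ k = ∑ i, (x i) ^ k)).card := by
        apply Finset.card_le_card
        intro y hy
        rw [Finset.mem_filter, F, Finset.mem_filter] at hy
        rw [Finset.mem_filter]
        exact ⟨hy.1.1, hy.1.2.trans hx.2.symm, hy.2.symm⟩
      exact_mod_cast h3
    refine (Finset.sum_le_sum h2).trans (le_of_eq ?_)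
    rw [Finset.sum_const, nsmul_eq_mul]
  rw [J]
  push_cast
  refine (Finset.sum_le_sum h1).trans ?_
  rw [← Finset.sum_mul]
  refine mul_le_mul_of_nonneg_right ?_ hB0
  have h4 : ∑ j ∈ Icc 0 (m * N), (F m N j).card ≤ N ^ m := by
    have h5 := Finset.card_eq_sum_card_fiberwise (s := Fintype.piFinset (fun _ : Fin m => Icc 1 N))
      (t := Icc 0 (m * N)) (f := fun x : Fin m → ℕ => ∑ i, x i) (by
        intro x hx
        simp only [Finset.mem_coe, Fintype.mem_piFinset] at hx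
        simp only [Finset.mem_coe, mem_Icc]
        refine ⟨Nat.zero_le _, ?_⟩
        calc ∑ i, x i ≤ ∑ _i : Fin m, N := Finset.sum_le_sum (fun i _ => (mem_Icc.mp (hx i)).2)
          _ = m * N := by simp)
    rw [Fintype.card_piFinset] at h5
    simp only [Nat.card_Icc, Finset.prod_const, Finset.card_univ, Fintype.card_fin] at h5
    have h6 : N + 1 - 1 = N := by omega
    rw [h6] at h5
    rw [h5]
    rfl
  exact_mod_cast h4

/-- strict convexity of powers -/
theorem conv (k : ℕ) (hk : 2 ≤ k) (a d δ : ℕ) (hd : a < d) (hδ : 0 < δ) :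
    (a + δ) ^ k + d ^ k < (d + δ) ^ k + a ^ k := by
  have key : ∀ k : ℕ, 1 ≤ k → (a + δ) ^ k + d ^ k ≤ (d + δ) ^ k + a ^ k := by
    intro k hk
    induction k, hk using Nat.le_induction with
    | base => simp only [pow_one]; omega
    | succ k hk ih =>
      have h1 : a ^ k ≤ (a + δ) ^ k := Nat.pow_le_pow_left (by omega) k
      have h2 : (a + δ) ^ k ≤ (d + δ) ^ k := Nat.pow_le_pow_left (by omega) k
      have h3 : a ^ k ≤ d ^ k := Nat.pow_le_pow_left (by omega) k
      zify at *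
      nlinarith [mul_nonneg (by linarith : (0 : ℤ) ≤ (d : ℤ) - a)
        (by linarith : (0 : ℤ) ≤ ((a : ℤ) + δ) ^ k - (a : ℤ) ^ k),
        mul_nonneg (by positivity : (0 : ℤ) ≤ (δ : ℤ))
        (by linarith : (0 : ℤ) ≤ ((d : ℤ) + δ) ^ k - ((a : ℤ) + δ) ^ k),
        mul_nonneg (by positivity : (0 : ℤ) ≤ (d : ℤ))
        (by linarith : (0 : ℤ) ≤ ((d : ℤ) + δ) ^ k + (a : ℤ) ^ k - ((a : ℤ) + δ) ^ k - (d : ℤ) ^ k),
        pow_succ ((a : ℤ) + δ) k, pow_succ (d : ℤ) k, pow_succ ((d : ℤ) + δ) k, pow_succ (a : ℤ) k]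
  obtain ⟨j, rfl⟩ : ∃ j, k = j + 1 := ⟨k - 1, by omega⟩
  have hj : 1 ≤ j := by omega
  have ih := key j hj
  have h1 : a ^ j ≤ (a + δ) ^ j := Nat.pow_le_pow_left (by omega) j
  have h2 : (a + δ) ^ j < (d + δ) ^ j := Nat.pow_lt_pow_left (by omega) (by omega)
  zify at *
  nlinarith [mul_nonneg (by linarith : (0 : ℤ) ≤ (d : ℤ) - a)
        (by linarith : (0 : ℤ) ≤ ((a : ℤ) + δ) ^ j - (a : ℤ) ^ j),
        mul_pos hδ (by linarith : (0 : ℤ) < ((d : ℤ) + δ) ^ j - ((a : ℤ) + δ) ^ j),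
        mul_nonneg (by positivity : (0 : ℤ) ≤ (d : ℤ))
        (by linarith : (0 : ℤ) ≤ ((d : ℤ) + δ) ^ j + (a : ℤ) ^ j - ((a : ℤ) + δ) ^ j - (d : ℤ) ^ j),
        pow_succ ((a : ℤ) + δ) j, pow_succ (d : ℤ) j, pow_succ ((d : ℤ) + δ) j, pow_succ (a : ℤ) j]

theorem two_sums (k : ℕ) (hk : 2 ≤ k) (a b c d : ℕ) (h1 : a + b = c + d)
    (h2 : a ^ k + b ^ k = c ^ k + d ^ k) : (c = a ∧ d = b) ∨ (c = b ∧ d = a) := by
  -- reduce to a ≤ b, c ≤ d
  have main : ∀ a b c d : ℕ, a ≤ b → c ≤ d → a + b = c + d → a ^ k + b ^ k = c ^ k + d ^ k →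
      a = c := by
    intro a b c d hab hcd h1 h2
    rcases lt_trichotomy a c with h | h | h
    · exfalso
      have h3 := conv k hk a d (c - a) (by omega) (by omega)
      have e1 : a + (c - a) = c := by omega
      have e2 : d + (c - a) = b := by omega
      rw [e1, e2] at h3
      omega
    · exact h
    · exfalso
      have h3 := conv k hk c b (a - c) (by omega) (by omega)
      have e1 : c + (a - c) = a := by omega
      have e2 : b + (a - c) = d := by omega
      rw [e1, e2] at h3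
      omega
  rcases le_total a b with hab | hab <;> rcases le_total c d with hcd | hcd
  · left; have := main a b c d hab hcd h1 h2; omega
  · right; have := main a b d c hab hcd (by omega) (by omega); omega
  · right; have := main b a c d hab hcd (by omega) (by omega); omega
  · left; have := main b a d c hab hcd (by omega) (by omega); omega

theorem J_two (k N : ℕ) (hk : 2 ≤ k) : (J k 2 N : ℝ) ≤ 2 * (N : ℝ) ^ 2 := by
  classical
  have h := J_le k 2 N 2 (by norm_num) ?_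
  · linarith
  · intro x _
    have hsub : (Fintype.piFinset (fun _ : Fin 2 => Icc 1 N)).filter
        (fun y => ∑ i, y i = ∑ i, x i ∧ ∑ i, (y i) ^ k = ∑ i, (x i) ^ k)
        ⊆ {x, ![x 1, x 0]} := by
      intro y hy
      rw [Finset.mem_filter] at hy
      obtain ⟨-, h1, h2⟩ := hy
      simp only [Fin.sum_univ_two] at h1 h2
      rw [Finset.mem_insert, Finset.mem_singleton]
      rcases two_sums k hk (x 0) (x 1) (y 0) (y 1) h1.symm h2.symm with h | h
      · left
        ext i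
        fin_cases i
        · exact h.1
        · exact h.2
      · right
        ext i
        fin_cases i
        · exact h.1
        · exact h.2
    have h3 := (Finset.card_le_card hsub).trans Finset.card_le_two
    exact_mod_cast h3

theorem J_three (η C0 : ℝ) (hη : 0 ≤ η) (hC0 : 0 < C0)
    (hdiv : ∀ n : ℕ, 1 ≤ n → (n.divisors.card : ℝ) ≤ C0 * (n : ℝ) ^ η) (N : ℕ) :
    (J 3 3 N : ℝ) ≤ (N : ℝ) ^ 3 * (C0 * ((8 * N ^ 3 : ℕ) : ℝ) ^ η) ^ 3 := by
  classical
  refine J_le 3 3 N _ (by positivity) ?_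
  intro x hx
  rw [Fintype.mem_piFinset] at hx
  set P : ℕ := (x 0 + x 1) * (x 1 + x 2) * (x 2 + x 0) with hP
  have hx0 := mem_Icc.mp (hx 0)
  have hx1 := mem_Icc.mp (hx 1)
  have hx2 := mem_Icc.mp (hx 2)
  have hP1 : 1 ≤ P := by
    rw [hP]
    exact Nat.one_le_iff_ne_zero.mpr (mul_ne_zero (mul_ne_zero (by omega) (by omega)) (by omega))
  have hP8 : P ≤ 8 * N ^ 3 := by
    calc P ≤ (2 * N) * (2 * N) * (2 * N) := by
          rw [hP]
          exact Nat.mul_le_mul (Nat.mul_le_mul (by omega) (by omega)) (by omega)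
      _ = 8 * N ^ 3 := by ring
  have hcard : ((Fintype.piFinset (fun _ : Fin 3 => Icc 1 N)).filter
        (fun y => ∑ i, y i = ∑ i, x i ∧ ∑ i, (y i) ^ 3 = ∑ i, (x i) ^ 3)).card
      ≤ (P.divisors ×ˢ P.divisors ×ˢ P.divisors).card := by
    refine Finset.card_le_card_of_injOn (fun y => (y 0 + y 1, y 1 + y 2, y 2 + y 0)) ?_ ?_
    · intro y hy
      simp only [Finset.coe_filter, Set.mem_ofPred_eq, Fin.sum_univ_three] at hy
      obtain ⟨-, h1, h2⟩ := hy
      have hPy : (y 0 + y 1) * (y 1 + y 2) * (y 2 + y 0) = P := by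
        have e1 : (y 0 + y 1 + y 2) ^ 3 = y 0 ^ 3 + y 1 ^ 3 + y 2 ^ 3
            + 3 * ((y 0 + y 1) * (y 1 + y 2) * (y 2 + y 0)) := by ring
        have e2 : (x 0 + x 1 + x 2) ^ 3 = x 0 ^ 3 + x 1 ^ 3 + x 2 ^ 3
            + 3 * ((x 0 + x 1) * (x 1 + x 2) * (x 2 + x 0)) := by ring
        rw [h1, h2, e2] at e1
        omega
      have hP0 : P ≠ 0 := by omega
      simp only [Finset.mem_coe, Finset.mem_product, Nat.mem_divisors]
      refine ⟨⟨?_, hP0⟩, ⟨?_, hP0⟩, ⟨?_, hP0⟩⟩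
      · rw [← hPy]; exact ⟨(y 1 + y 2) * (y 2 + y 0), by ring⟩
      · rw [← hPy]; exact ⟨(y 0 + y 1) * (y 2 + y 0), by ring⟩
      · rw [← hPy]; exact ⟨(y 0 + y 1) * (y 1 + y 2), by ring⟩
    · intro y _ z _ h
      simp only [Prod.mk.injEq] at h
      ext i
      fin_cases i
      · show y 0 = z 0; omega
      · show y 1 = z 1; omega
      · show y 2 = z 2; omega
  rw [Finset.card_product, Finset.card_product] at hcard
  have hd := hdiv P hP1
  have hd2 : (P.divisors.card : ℝ) ≤ C0 * ((8 * N ^ 3 : ℕ) : ℝ) ^ η := by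
    refine hd.trans (mul_le_mul_of_nonneg_left ?_ hC0.le)
    exact Real.rpow_le_rpow (Nat.cast_nonneg _) (by exact_mod_cast hP8) hη
  calc (((Fintype.piFinset (fun _ : Fin 3 => Icc 1 N)).filter
        (fun y => ∑ i, y i = ∑ i, x i ∧ ∑ i, (y i) ^ 3 = ∑ i, (x i) ^ 3)).card : ℝ)
      ≤ ((P.divisors.card * (P.divisors.card * P.divisors.card) : ℕ) : ℝ) := by exact_mod_cast hcard
    _ = (P.divisors.card : ℝ) ^ 3 := by push_cast; ring
    _ ≤ _ := pow_le_pow_left₀ (Nat.cast_nonneg _) hd2 3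

end Pool.Agent.H735WS
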