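import Mathlib
import Pool.Agent.H735WS.Count

/-! Weyl sums over intervals: moments over the leading coefficient. -/

set_option autoImplicit false

open Finset MeasureTheory

namespace Pool.Agent.H735WS.I

/-- the Weyl sum over `(a, a+h]` -/
noncomputable def S (k a h : ℕ) (t ξ : ℝ) : ℂ :=
  ∑ n ∈ Ioc a (a + h), Complex.exp (2 * Real.pi * Complex.I * ((t * (n : ℝ) ^ k + ξ * n : ℝ) : ℂ))

/-- tuples with given sum -/
def F (m a h j : ℕ) : Finset (Fin m → ℕ) :=
  (Fintype.piFinset (fun _ : Fin m => Ioc a (a + h))).filter (fun x => ∑ i, x i = j)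

/-- coefficients -/
noncomputable def c (k m a h j : ℕ) (t : ℝ) : ℂ :=
  ∑ x ∈ F m a h j, Complex.exp (2 * Real.pi * Complex.I * ((t * ((∑ i, (x i) ^ k : ℕ) : ℝ) : ℝ) : ℂ))

noncomputable def G (k m a h : ℕ) (t : ℝ) : ℝ :=
  ∑ j ∈ Icc (m * a) (m * (a + h)), ‖c k m a h j t‖ ^ 2

theorem maps (m a h : ℕ) (x : Fin m → ℕ)
    (hx : x ∈ Fintype.piFinset (fun _ : Fin m => Ioc a (a + h))) :
    ∑ i, x i ∈ Icc (m * a) (m * (a + h)) := by
  rw [Fintype.mem_piFinset] at hx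
  rw [mem_Icc]
  constructor
  · calc m * a = ∑ _i : Fin m, a := by simp
      _ ≤ ∑ i, x i := Finset.sum_le_sum (fun i _ => (mem_Ioc.mp (hx i)).1.le)
  · calc ∑ i, x i ≤ ∑ _i : Fin m, (a + h) := Finset.sum_le_sum (fun i _ => (mem_Ioc.mp (hx i)).2)
      _ = m * (a + h) := by simp

theorem S_pow (k m a h : ℕ) (t ξ : ℝ) :
    (S k a h t ξ) ^ m = ∑ j ∈ Icc (m * a) (m * (a + h)),
      Complex.exp (2 * Real.pi * Complex.I * ((ξ * (j : ℝ) : ℝ) : ℂ)) * c k m a h j t := by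
  rw [S, Finset.sum_pow']
  rw [← Finset.sum_fiberwise_of_maps_to (g := fun x : Fin m → ℕ => ∑ i, x i)
    (t := Icc (m * a) (m * (a + h))) (fun x hx => maps m a h x hx)]
  refine Finset.sum_congr rfl (fun j _ => ?_)
  rw [c, Finset.mul_sum]
  refine Finset.sum_congr rfl (fun x hx => ?_)
  rw [F, Finset.mem_filter] at hx
  rw [← Complex.exp_sum, ← Complex.exp_add, ← hx.2]
  congr 1
  rw [← Finset.mul_sum, ← mul_add]
  congr 1
  push_cast
  rw [Finset.sum_add_distrib, ← Finset.mul_sum, ← Finset.mul_sum]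
  ring

theorem S_le (k m a h : ℕ) (t ξ : ℝ) :
    ‖S k a h t ξ‖ ^ (2 * m) ≤ (m * h + 1 : ℝ) * G k m a h t := by
  have h1 : ‖S k a h t ξ‖ ^ (2 * m) = ‖(S k a h t ξ) ^ m‖ ^ 2 := by
    rw [norm_pow, ← pow_mul, mul_comm]
  rw [h1, S_pow]
  have h2 : ‖∑ j ∈ Icc (m * a) (m * (a + h)),
      Complex.exp (2 * Real.pi * Complex.I * ((ξ * (j : ℝ) : ℝ) : ℂ))
      * c k m a h j t‖ ≤ ∑ j ∈ Icc (m * a) (m * (a + h)), ‖c k m a h j t‖ := by
    refine (norm_sum_le _ _).trans (le_of_eq ?_)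
    refine Finset.sum_congr rfl (fun j _ => ?_)
    rw [norm_mul, norm_e, one_mul]
  refine (pow_le_pow_left₀ (norm_nonneg _) h2 2).trans ?_
  refine (sq_sum_le_card_mul_sum_sq).trans (le_of_eq ?_)
  rw [Nat.card_Icc, G]
  have h3 : m * (a + h) + 1 - m * a = m * h + 1 := by
    rw [mul_add]; omega
  rw [h3]
  push_cast
  rfl

/-- number of solutions -/
def J (k m a h : ℕ) : ℕ := ∑ j ∈ Icc (m * a) (m * (a + h)),
  (((F m a h j) ×ˢ (F m a h j)).filter (fun q => ∑ i, (q.1 i) ^ k = ∑ i, (q.2 i) ^ k)).card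

theorem norm_c_sq (k m a h j : ℕ) (t : ℝ) : ((‖c k m a h j t‖ ^ 2 : ℝ) : ℂ)
    = ∑ q ∈ (F m a h j) ×ˢ (F m a h j), Complex.exp (2 * Real.pi * Complex.I *
      (((∑ i, (q.1 i) ^ k : ℕ) : ℤ) - ((∑ i, (q.2 i) ^ k : ℕ) : ℤ) : ℤ) * t) := by
  have h2 : ((‖c k m a h j t‖ ^ 2 : ℝ) : ℂ) = c k m a h j t * (starRingEnd ℂ) (c k m a h j t) := by
    rw [Complex.mul_conj, Complex.normSq_eq_norm_sq]
  rw [h2, c, map_sum, Finset.sum_mul_sum, ← Finset.sum_product']
  refine Finset.sum_congr rfl (fun q _ => ?_)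
  rw [← Complex.exp_conj, ← Complex.exp_add]
  congr 1
  simp only [map_mul, Complex.conj_ofReal, Complex.conj_I, map_ofNat]
  push_cast
  ring

theorem cont_G (k m a h : ℕ) : Continuous (G k m a h) := by
  unfold G c
  fun_prop

theorem int_G (k m a h : ℕ) : ∫ t in (0 : ℝ)..1, G k m a h t = (J k m a h : ℝ) := by
  have h1 : ((∫ t in (0 : ℝ)..1, G k m a h t : ℝ) : ℂ) = ((J k m a h : ℝ) : ℂ) := by
    rw [← intervalIntegral.integral_ofReal]
    have h2 : ∀ t : ℝ, ((G k m a h t : ℝ) : ℂ) = ∑ j ∈ Icc (m * a) (m * (a + h)),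
        ∑ q ∈ (F m a h j) ×ˢ (F m a h j), Complex.exp (2 * Real.pi * Complex.I *
      (((∑ i, (q.1 i) ^ k : ℕ) : ℤ) - ((∑ i, (q.2 i) ^ k : ℕ) : ℤ) : ℤ) * t) := by
      intro t
      rw [G, Complex.ofReal_sum]
      exact Finset.sum_congr rfl (fun j _ => norm_c_sq k m a h j t)
    simp_rw [h2]
    rw [intervalIntegral.integral_finsetSum]
    · have h3 : ∀ j ∈ Icc (m * a) (m * (a + h)), ∫ t in (0 : ℝ)..1,
          ∑ q ∈ (F m a h j) ×ˢ (F m a h j), Complex.exp (2 * Real.pi * Complex.I *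
          (((∑ i, (q.1 i) ^ k : ℕ) : ℤ) - ((∑ i, (q.2 i) ^ k : ℕ) : ℤ) : ℤ) * t)
          = ((((F m a h j) ×ˢ (F m a h j)).filter
            (fun q => ∑ i, (q.1 i) ^ k = ∑ i, (q.2 i) ^ k)).card : ℂ) := by
        intro j _
        rw [intervalIntegral.integral_finsetSum]
        · rw [Finset.card_filter]
          push_cast
          refine Finset.sum_congr rfl (fun q _ => ?_)
          have h4 := int_e (((∑ i, (q.1 i) ^ k : ℕ) : ℤ) - ((∑ i, (q.2 i) ^ k : ℕ) : ℤ))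
          push_cast at h4 ⊢
          rw [h4]
          by_cases h5 : ∑ i, (q.1 i) ^ k = ∑ i, (q.2 i) ^ k
          · rw [if_pos h5, if_pos]
            have : ((∑ i, (q.1 i) ^ k : ℕ) : ℤ) = ((∑ i, (q.2 i) ^ k : ℕ) : ℤ) := by rw [h5]
            push_cast at this
            rw [this, sub_self]
          · rw [if_neg h5, if_neg]
            intro h6
            apply h5
            have : ((∑ i, (q.1 i) ^ k : ℕ) : ℤ) = ((∑ i, (q.2 i) ^ k : ℕ) : ℤ) := by
              push_cast; linarith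
            exact_mod_cast this
        · intro q _
          apply Continuous.intervalIntegrable
          fun_prop
      rw [Finset.sum_congr rfl h3, J]
      push_cast
      rfl
    · intro j _
      apply Continuous.intervalIntegrable
      fun_prop
  exact_mod_cast h1

/-- general bound: if every `x` has at most `B` partners -/
theorem J_le (k m a h : ℕ) (B : ℝ) (hB0 : 0 ≤ B)
    (hB : ∀ x ∈ Fintype.piFinset (fun _ : Fin m => Ioc a (a + h)),
      (((Fintype.piFinset (fun _ : Fin m => Ioc a (a + h))).filter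
        (fun y => ∑ i, y i = ∑ i, x i ∧ ∑ i, (y i) ^ k = ∑ i, (x i) ^ k)).card : ℝ) ≤ B) :
    (J k m a h : ℝ) ≤ (h : ℝ) ^ m * B := by
  classical
  have h1 : ∀ j ∈ Icc (m * a) (m * (a + h)), ((((F m a h j) ×ˢ (F m a h j)).filter
      (fun q => ∑ i, (q.1 i) ^ k = ∑ i, (q.2 i) ^ k)).card : ℝ) ≤ (F m a h j).card * B := by
    intro j _
    rw [Finset.card_filter, Finset.sum_product]
    push_cast
    have h2 : ∀ x ∈ F m a h j, ∑ y ∈ F m a h j,
        (if ∑ i, (x i) ^ k = ∑ i, (y i) ^ k then (1 : ℝ) else 0) ≤ B := by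
      intro x hx
      rw [F, Finset.mem_filter] at hx
      refine le_trans ?_ (hB x hx.1)
      rw [← Finset.sum_filter, Finset.sum_const, nsmul_eq_mul, mul_one]
      have h3 : ((F m a h j).filter (fun y => ∑ i, (x i) ^ k = ∑ i, (y i) ^ k)).card
          ≤ ((Fintype.piFinset (fun _ : Fin m => Ioc a (a + h))).filter
        (fun y => ∑ i, y i = ∑ i, x i ∧ ∑ i, (y i) ^ k = ∑ i, (x i) ^ k)).card := by
        apply Finset.card_le_card
        intro y hy
        rw [Finset.mem_filter, F, Finset.mem_filter] at hy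
        rw [Finset.mem_filter]
        exact ⟨hy.1.1, hy.1.2.trans hx.2.symm, hy.2.symm⟩
      exact_mod_cast h3
    refine (Finset.sum_le_sum h2).trans (le_of_eq ?_)
    rw [Finset.sum_const, nsmul_eq_mul]
  rw [J]
  push_cast
  refine (Finset.sum_le_sum h1).trans ?_
  rw [← Finset.sum_mul]
  refine mul_le_mul_of_nonneg_right ?_ hB0
  have h4 : ∑ j ∈ Icc (m * a) (m * (a + h)), (F m a h j).card ≤ h ^ m := by
    have h5 := Finset.card_eq_sum_card_fiberwise
      (s := Fintype.piFinset (fun _ : Fin m => Ioc a (a + h)))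
      (t := Icc (m * a) (m * (a + h))) (f := fun x : Fin m → ℕ => ∑ i, x i) (by
        intro x hx
        exact maps m a h x (Finset.mem_coe.mp hx))
    rw [Fintype.card_piFinset] at h5
    simp only [Nat.card_Ioc, Finset.prod_const, Finset.card_univ, Fintype.card_fin] at h5
    have h6 : a + h - a = h := by omega
    rw [h6] at h5
    rw [h5]
    rfl
  exact_mod_cast h4

theorem J_two (k a h : ℕ) (hk : 2 ≤ k) : (J k 2 a h : ℝ) ≤ 2 * (h : ℝ) ^ 2 := by
  classical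
  have h := J_le k 2 a h 2 (by norm_num) ?_
  · linarith
  · intro x _
    have hsub : (Fintype.piFinset (fun _ : Fin 2 => Ioc a (a + h))).filter
        (fun y => ∑ i, y i = ∑ i, x i ∧ ∑ i, (y i) ^ k = ∑ i, (x i) ^ k)
        ⊆ {x, ![x 1, x 0]} := by
      intro y hy
      rw [Finset.mem_filter] at hy
      obtain ⟨-, h1, h2⟩ := hy
      simp only [Fin.sum_univ_two] at h1 h2
      rw [Finset.mem_insert, Finset.mem_singleton]
      rcases two_sums k hk (x 0) (x 1) (y 0) (y 1) h1.symm h2.symm with h | h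
      · left
        ext i
        fin_cases i
        · exact h.1
        · exact h.2
      · right
        ext i
        fin_cases i
        · exact h.1
        · exact h.2
    have h3 := (Finset.card_le_card hsub).trans Finset.card_le_two
    exact_mod_cast h3

theorem J_three (η C0 : ℝ) (hη : 0 ≤ η) (hC0 : 0 < C0)
    (hdiv : ∀ n : ℕ, 1 ≤ n → (n.divisors.card : ℝ) ≤ C0 * (n : ℝ) ^ η) (a h : ℕ) :
    (J 3 3 a h : ℝ) ≤ (h : ℝ) ^ 3 * (C0 * ((8 * (a + h) ^ 3 : ℕ) : ℝ) ^ η) ^ 3 := by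
  classical
  refine J_le 3 3 a h _ (by positivity) ?_
  intro x hx
  rw [Fintype.mem_piFinset] at hx
  set P : ℕ := (x 0 + x 1) * (x 1 + x 2) * (x 2 + x 0) with hP
  have hx0 := mem_Ioc.mp (hx 0)
  have hx1 := mem_Ioc.mp (hx 1)
  have hx2 := mem_Ioc.mp (hx 2)
  have hP1 : 1 ≤ P := by
    rw [hP]
    exact Nat.one_le_iff_ne_zero.mpr (mul_ne_zero (mul_ne_zero (by omega) (by omega)) (by omega))
  have hP8 : P ≤ 8 * (a + h) ^ 3 := by
    calc P ≤ (2 * (a + h)) * (2 * (a + h)) * (2 * (a + h)) := by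
          rw [hP]
          exact Nat.mul_le_mul (Nat.mul_le_mul (by omega) (by omega)) (by omega)
      _ = 8 * (a + h) ^ 3 := by ring
  have hcard : ((Fintype.piFinset (fun _ : Fin 3 => Ioc a (a + h))).filter
        (fun y => ∑ i, y i = ∑ i, x i ∧ ∑ i, (y i) ^ 3 = ∑ i, (x i) ^ 3)).card
      ≤ (P.divisors ×ˢ P.divisors ×ˢ P.divisors).card := by
    refine Finset.card_le_card_of_injOn (fun y => (y 0 + y 1, y 1 + y 2, y 2 + y 0)) ?_ ?_
    · intro y hy
      simp only [Finset.coe_filter, Set.mem_ofPred_eq, Fin.sum_univ_three] at hy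
      obtain ⟨-, h1, h2⟩ := hy
      have hPy : (y 0 + y 1) * (y 1 + y 2) * (y 2 + y 0) = P := by
        have e1 : (y 0 + y 1 + y 2) ^ 3 = y 0 ^ 3 + y 1 ^ 3 + y 2 ^ 3
            + 3 * ((y 0 + y 1) * (y 1 + y 2) * (y 2 + y 0)) := by ring
        have e2 : (x 0 + x 1 + x 2) ^ 3 = x 0 ^ 3 + x 1 ^ 3 + x 2 ^ 3
            + 3 * ((x 0 + x 1) * (x 1 + x 2) * (x 2 + x 0)) := by ring
        rw [h1, h2, e2] at e1
        omega
      have hP0 : P ≠ 0 := by omega
      simp only [Finset.mem_coe, Finset.mem_product, Nat.mem_divisors]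
      refine ⟨⟨?_, hP0⟩, ⟨?_, hP0⟩, ⟨?_, hP0⟩⟩
      · rw [← hPy]; exact ⟨(y 1 + y 2) * (y 2 + y 0), by ring⟩
      · rw [← hPy]; exact ⟨(y 0 + y 1) * (y 2 + y 0), by ring⟩
      · rw [← hPy]; exact ⟨(y 0 + y 1) * (y 1 + y 2), by ring⟩
    · intro y _ z _ h
      simp only [Prod.mk.injEq] at h
      ext i
      fin_cases i
      · show y 0 = z 0; omega
      · show y 1 = z 1; omega
      · show y 2 = z 2; omega
  rw [Finset.card_product, Finset.card_product] at hcard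
  have hd := hdiv P hP1
  have hd2 : (P.divisors.card : ℝ) ≤ C0 * ((8 * (a + h) ^ 3 : ℕ) : ℝ) ^ η := by
    refine hd.trans (mul_le_mul_of_nonneg_left ?_ hC0.le)
    exact Real.rpow_le_rpow (Nat.cast_nonneg _) (by exact_mod_cast hP8) hη
  calc (((Fintype.piFinset (fun _ : Fin 3 => Ioc a (a + h))).filter
        (fun y => ∑ i, y i = ∑ i, x i ∧ ∑ i, (y i) ^ 3 = ∑ i, (x i) ^ 3)).card : ℝ)
      ≤ ((P.divisors.card * (P.divisors.card * P.divisors.card) : ℕ) : ℝ) := by exact_mod_cast hcard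
    _ = (P.divisors.card : ℝ) ^ 3 := by push_cast; ring
    _ ≤ _ := pow_le_pow_left₀ (Nat.cast_nonneg _) hd2 3

theorem meas_le (k m a h : ℕ) (lam : ℝ) (hlam : 0 < lam) :
    volume {t : ℝ | t ∈ Set.Icc (0 : ℝ) 1 ∧ ∃ ξ : ℝ, lam < ‖S k a h t ξ‖}
      ≤ ENNReal.ofReal ((m * h + 1 : ℝ) * J k m a h / lam ^ (2 * m)) := by
  set L : ℝ := lam ^ (2 * m) / (m * h + 1 : ℝ) with hL
  have hmN : (0 : ℝ) < (m * h + 1 : ℝ) := by positivity
  have hL0 : 0 < L := by positivity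
  have hsub : {t : ℝ | t ∈ Set.Icc (0 : ℝ) 1 ∧ ∃ ξ : ℝ, lam < ‖S k a h t ξ‖}
      ⊆ {t : ℝ | L ≤ G k m a h t} ∩ Set.Icc (0 : ℝ) 1 := by
    rintro t ⟨ht, ξ, hξ⟩
    refine ⟨?_, ht⟩
    show L ≤ G k m a h t
    rw [hL, div_le_iff₀ hmN]
    have h0 := S_le k m a h t ξ
    have h1 : lam ^ (2 * m) ≤ ‖S k a h t ξ‖ ^ (2 * m) := pow_le_pow_left₀ hlam.le hξ.le _
    calc lam ^ (2 * m) ≤ (m * h + 1 : ℝ) * G k m a h t := h1.trans h0
      _ = G k m a h t * (m * h + 1 : ℝ) := by ring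
  have hmeas : MeasurableSet {t : ℝ | L ≤ G k m a h t} :=
    measurableSet_le measurable_const (cont_G k m a h).measurable
  refine (measure_mono hsub).trans ?_
  rw [← Measure.restrict_apply hmeas]
  have hG0 : ∀ t, 0 ≤ G k m a h t := fun t => Finset.sum_nonneg (fun _ _ => sq_nonneg _)
  have hint : Integrable (G k m a h) (volume.restrict (Set.Icc (0 : ℝ) 1)) :=
    (cont_G k m a h).continuousOn.integrableOn_Icc
  have h1 := mul_meas_ge_le_integral_of_nonneg (μ := volume.restrict (Set.Icc (0 : ℝ) 1))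
    (Filter.Eventually.of_forall hG0) hint L
  have h2 : ∫ t in Set.Icc (0 : ℝ) 1, G k m a h t = (J k m a h : ℝ) := by
    rw [integral_Icc_eq_integral_Ioc, ← intervalIntegral.integral_of_le (by norm_num)]
    exact int_G k m a h
  rw [h2] at h1
  have h3 : (volume.restrict (Set.Icc (0 : ℝ) 1)).real {t : ℝ | L ≤ G k m a h t}
      ≤ (m * h + 1 : ℝ) * J k m a h / lam ^ (2 * m) := by
    rw [mul_comm, ← le_div_iff₀ hL0] at h1
    refine h1.trans (le_of_eq ?_)
    rw [hL]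
    field_simp
  have hfin : (volume.restrict (Set.Icc (0 : ℝ) 1)) {t : ℝ | L ≤ G k m a h t} ≠ ⊤ :=
    measure_ne_top _ _
  rw [← ofReal_measureReal hfin]
  exact ENNReal.ofReal_le_ofReal h3

end Pool.Agent.H735WS.I
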