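import Pool.Agent.H735WS.AEFinal

/-! Almost every real leading coefficient. -/

set_option autoImplicit false

open Finset MeasureTheory Filter

namespace Pool.Agent.H735WS.I

theorem exp_per (k : ℕ) (z : ℤ) (t ξ : ℝ) (n : ℕ) :
    Complex.exp (2 * (Real.pi : ℂ) * Complex.I *
          ((((t - z) * (n : ℝ) ^ k + ξ * (n : ℝ)) : ℝ) : ℂ))
      = Complex.exp (2 * (Real.pi : ℂ) * Complex.I *
          (((t * (n : ℝ) ^ k + ξ * (n : ℝ)) : ℝ) : ℂ)) := by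
  have h : 2 * (Real.pi : ℂ) * Complex.I * ((((t - z) * (n : ℝ) ^ k + ξ * (n : ℝ)) : ℝ) : ℂ)
      = 2 * (Real.pi : ℂ) * Complex.I * (((t * (n : ℝ) ^ k + ξ * (n : ℝ)) : ℝ) : ℂ)
        - ((z * (n : ℤ) ^ k : ℤ) : ℂ) * (2 * Real.pi * Complex.I) := by
    push_cast; ring
  rw [h, Complex.exp_sub, Complex.exp_int_mul_two_pi_mul_I, div_one]

theorem ae_real (k : ℕ) (hk : 3 ≤ k) :
    ∀ᵐ t : ℝ, ∀ ε : ℝ, 0 < ε → ∃ C : ℝ, 0 < C ∧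
      ∀ N : ℕ, 1 ≤ N → ∀ ξ : ℝ,
        ‖∑ n ∈ Icc 1 N, Complex.exp (2 * (Real.pi : ℂ) * Complex.I *
          (((t * (n : ℝ) ^ k + ξ * (n : ℝ)) : ℝ) : ℂ))‖
        ≤ C * (N : ℝ) ^ (1 - 1 / (k : ℝ) + ε) := by
  have h0 := ae_main k hk
  have h1 : ∀ z : ℤ, ∀ᵐ t : ℝ, (t - z) ∈ Set.Icc (0 : ℝ) 1 → ∀ ε : ℝ, 0 < ε → ∃ C : ℝ, 0 < C ∧
      ∀ N : ℕ, 1 ≤ N → ∀ ξ : ℝ,
        ‖∑ n ∈ Icc 1 N, Complex.exp (2 * (Real.pi : ℂ) * Complex.I *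
          ((((t - z) * (n : ℝ) ^ k + ξ * (n : ℝ)) : ℝ) : ℂ))‖
        ≤ C * (N : ℝ) ^ (1 - 1 / (k : ℝ) + ε) := by
    intro z
    exact (measurePreserving_sub_right volume (z : ℝ)).quasiMeasurePreserving.ae h0
  filter_upwards [ae_all_iff.mpr h1] with t ht ε hε
  have hz : (t - (⌊t⌋ : ℤ)) ∈ Set.Icc (0 : ℝ) 1 :=
    ⟨sub_nonneg.mpr (Int.floor_le t), by linarith [Int.lt_floor_add_one t]⟩
  obtain ⟨C, hC, hb⟩ := ht ⌊t⌋ hz ε hε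
  refine ⟨C, hC, ?_⟩
  intro N hN ξ
  have := hb N hN ξ
  rwa [Finset.sum_congr rfl (fun n _ => exp_per k ⌊t⌋ t ξ n)] at this

end Pool.Agent.H735WS.I
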